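import Pool.Agent.Lib_MP_1209e6_dl.Defs

/-! PIECE DL2: projective change of coordinates. -/

set_option autoImplicit false

open MvPolynomial

namespace Pool.Agent.DP

theorem chg_lin_mulVec {K : Type} [Field K] [Algebra ℂ K] (z : Fin 2 → K)
    (N : Matrix (Fin 3) (Fin 3) ℂ) (u : Fin 3 → ℂ) :
    lin z (N.mulVec u) = algebraMap ℂ K (u 0) * lin z (fun r => N r 0) +
      algebraMap ℂ K (u 1) * lin z (fun r => N r 1) +
      algebraMap ℂ K (u 2) * lin z (fun r => N r 2) := by
  simp only [lin, Matrix.mulVec, dotProduct, Fin.sum_univ_three, map_add, map_mul]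
  ring

theorem chg_lin_ne {K : Type} [Field K] [Algebra ℂ K] {z : Fin 2 → K}
    (hz : AlgebraicIndependent ℂ z) {u : Fin 3 → ℂ} (hu : u ≠ 0) : lin z u ≠ 0 := by
  intro h
  have h1 : aeval z (C (u 0) + C (u 1) * X 0 + C (u 2) * X 1 : MvPolynomial (Fin 2) ℂ) = 0 := by
    simp only [map_add, map_mul, aeval_C, aeval_X]
    exact h
  have h2 := (algebraicIndependent_iff.1 hz) _ h1
  apply hu
  have e0 := congrArg (coeff 0) h2
  have e1 := congrArg (coeff (Finsupp.single 0 1)) h2
  have e2 := congrArg (coeff (Finsupp.single 1 1)) h2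
  have n1 : (Finsupp.single (0 : Fin 2) 1 : Fin 2 →₀ ℕ) ≠ 0 := by simp
  have n2 : (Finsupp.single (1 : Fin 2) 1 : Fin 2 →₀ ℕ) ≠ 0 := by simp
  have n3 : (Finsupp.single (0 : Fin 2) 1 : Fin 2 →₀ ℕ) ≠ Finsupp.single 1 1 := by
    intro h
    have := DFunLike.congr_fun h 0
    simp at this
  simp only [coeff_add, coeff_C, coeff_C_mul, MvPolynomial.coeff_X, coeff_zero] at e0 e1 e2
  have r0 : u 0 = 0 := by simpa using e0
  have r1 : u 1 = 0 := by
    simpa [n1.symm, n3.symm] using e1
  have r2 : u 2 = 0 := by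
    simpa [n2.symm, n3] using e2
  funext s
  fin_cases s
  · exact r0
  · exact r1
  · exact r2

/-- `N = M⁻¹`, `ρ = lin z (N e_0)`, `z' j = lin z (N e_(j+1)) / ρ`, `lin z v = ρ lin z' (M v)`,
`w' = w / ρ^(m/2)`. -/
theorem change {K : Type} [Field K] [Algebra ℂ K] {m : ℕ} (hm : Even m) (X : Lines K m)
    (M : Matrix (Fin 3) (Fin 3) ℂ) (hM : IsUnit M) :
    ∃ X' : Lines K m, ∀ i, X'.l i = M.mulVec (X.l i) := by
  classical
  obtain ⟨U, hU⟩ := hM
  set N : Matrix (Fin 3) (Fin 3) ℂ := ((U⁻¹ : (Matrix (Fin 3) (Fin 3) ℂ)ˣ) : Matrix (Fin 3) (Fin 3) ℂ)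
    with hN
  have hNM : N * M = 1 := by rw [hN, ← hU, Units.inv_mul]
  have hNMv : ∀ v, N.mulVec (M.mulVec v) = v := by
    intro v
    rw [Matrix.mulVec_mulVec, hNM, Matrix.one_mulVec]
  have hMN : M * N = 1 := by rw [hN, ← hU, Units.mul_inv]
  -- the first column of `N` is not zero
  have hcol : (fun r => N r 0) ≠ 0 := by
    intro h
    have h1 := congrFun (congrFun hMN 0) 0
    rw [Matrix.mul_apply] at h1
    have h2 : ∀ r, N r 0 = 0 := fun r => congrFun h r
    simp [h2] at h1
  set ρ : K := lin X.z (fun r => N r 0) with hρ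
  have hρ0 : ρ ≠ 0 := chg_lin_ne X.hz hcol
  set z' : Fin 2 → K := ![lin X.z (fun r => N r 1) / ρ, lin X.z (fun r => N r 2) / ρ] with hz'
  have hz0 : z' 0 = lin X.z (fun r => N r 1) / ρ := rfl
  have hz1 : z' 1 = lin X.z (fun r => N r 2) / ρ := rfl
  have key : ∀ v, lin X.z v = ρ * lin z' (M.mulVec v) := by
    intro v
    have h1 := chg_lin_mulVec X.z N (M.mulVec v)
    rw [hNMv] at h1
    have h2 : lin z' (M.mulVec v) = algebraMap ℂ K (M.mulVec v 0) +
        algebraMap ℂ K (M.mulVec v 1) * z' 0 + algebraMap ℂ K (M.mulVec v 2) * z' 1 := rfl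
    rw [h1, h2, hz0, hz1, ← hρ]
    field_simp
  -- values at the standard vectors
  have k0 : 1 = ρ * lin z' (M.mulVec ![1, 0, 0]) := by
    rw [← key]
    simp [lin]
  have k1 : X.z 0 = ρ * lin z' (M.mulVec ![0, 1, 0]) := by
    rw [← key]
    simp [lin]
  have k2 : X.z 1 = ρ * lin z' (M.mulVec ![0, 0, 1]) := by
    rw [← key]
    simp [lin]
  have hρi : ρ = (lin z' (M.mulVec ![1, 0, 0]))⁻¹ := by
    exact eq_inv_of_mul_eq_one_left k0.symm
  have hwz : X.w ^ 2 = ρ ^ m * ∏ i, lin z' (M.mulVec (X.l i)) := by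
    rw [X.hw]
    have : ∀ i ∈ (Finset.univ : Finset (Fin m)), lin X.z (X.l i) =
        ρ * lin z' (M.mulVec (X.l i)) := fun i _ => key _
    rw [Finset.prod_congr rfl this, Finset.prod_mul_distrib, Finset.prod_const, Finset.card_univ,
      Fintype.card_fin]
  -- algebraic independence
  have hind : AlgebraicIndependent ℂ z' := by
    set A := Algebra.adjoin ℂ (Set.range z') with hA
    have a0 : ∀ c : ℂ, IsAlgebraic A (algebraMap ℂ K c) := fun c =>
      isAlgebraic_algebraMap (algebraMap ℂ A c)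
    have a1 : ∀ j, IsAlgebraic A (z' j) := fun j =>
      isAlgebraic_algebraMap (⟨z' j, Algebra.subset_adjoin ⟨j, rfl⟩⟩ : A)
    have a2 : ∀ v, IsAlgebraic A (lin z' v) := fun v =>
      ((a0 _).add ((a0 _).mul (a1 0))).add ((a0 _).mul (a1 1))
    have a3 : IsAlgebraic A ρ := by
      rw [hρi]
      exact (a2 _).inv
    have a4 : ∀ j, IsAlgebraic A (X.z j) := by
      intro j
      fin_cases j
      · change IsAlgebraic A (X.z 0)
        rw [k1]
        exact a3.mul (a2 _)
      · change IsAlgebraic A (X.z 1)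
        rw [k2]
        exact a3.mul (a2 _)
    have a5 : IsAlgebraic A X.w := by
      have h1 : IsAlgebraic A (X.w ^ 2) := by
        rw [X.hw]
        have h2 : ∀ s : Finset (Fin m), IsAlgebraic A (∏ i ∈ s, lin X.z (X.l i)) := by
          intro s
          induction s using Finset.induction_on with
          | empty =>
            rw [Finset.prod_empty]
            exact isAlgebraic_one
          | insert a s ha ih =>
            rw [Finset.prod_insert ha]
            exact (((a0 _).add ((a0 _).mul (a4 0))).add ((a0 _).mul (a4 1))).mul ih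
        exact h2 _
      exact IsAlgebraic.of_pow (by norm_num) h1
    have halg : Algebra.IsAlgebraic A K := by
      refine ⟨fun x => ?_⟩
      have hx : x ∈ IntermediateField.adjoin ℂ (Set.range X.z ∪ {X.w}) := by
        rw [X.gen]
        trivial
      induction hx using IntermediateField.adjoin_induction with
      | mem x hx =>
        rcases hx with ⟨j, rfl⟩ | hx
        · exact a4 j
        · rw [Set.mem_singleton_iff] at hx
          rw [hx]
          exact a5
      | algebraMap c => exact a0 c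
      | add x y _ _ hx hy => exact hx.add hy
      | inv x _ hx => exact hx.inv
      | mul x y _ _ hx hy => exact hx.mul hy
    have hcard := X.hz.cardinalMk_le_trdeg
    exact (Algebra.IsAlgebraic.isTranscendenceBasis_of_le_trdeg_of_finite ℂ z' hcard).1
  have hinj : ∀ v, M.mulVec v = 0 → v = 0 := by
    intro v hv
    rw [← hNMv v, hv, Matrix.mulVec_zero]
  refine ⟨⟨z', X.w / ρ ^ (m / 2), fun i => M.mulVec (X.l i), hind, ?_, ?_, ?_, ?_⟩, fun i => rfl⟩
  · obtain ⟨k, hk⟩ := hm
    have h1 : m / 2 = k := by omega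
    rw [h1, div_pow, hwz, ← pow_mul]
    have h2 : m = k * 2 := by omega
    rw [← h2]
    field_simp
  · rw [eq_top_iff, ← X.gen, IntermediateField.adjoin_le_iff]
    set F := IntermediateField.adjoin ℂ (Set.range z' ∪ {X.w / ρ ^ (m / 2)}) with hF
    have f1 : ∀ j, z' j ∈ F := fun j => IntermediateField.subset_adjoin ℂ _ (Or.inl ⟨j, rfl⟩)
    have f2 : ∀ v, lin z' v ∈ F := fun v =>
      add_mem (add_mem (F.algebraMap_mem _) (mul_mem (F.algebraMap_mem _) (f1 0)))
        (mul_mem (F.algebraMap_mem _) (f1 1))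
    have f3 : ρ ∈ F := by
      rw [hρi]
      exact inv_mem (f2 _)
    have f4 : X.w ∈ F := by
      have h1 : X.w = X.w / ρ ^ (m / 2) * ρ ^ (m / 2) := by
        field_simp
      rw [h1]
      exact mul_mem (IntermediateField.subset_adjoin ℂ _ (Or.inr rfl)) (pow_mem f3 _)
    rintro x (⟨j, rfl⟩ | hx)
    · fin_cases j
      · change X.z 0 ∈ F
        rw [k1]
        exact mul_mem f3 (f2 _)
      · change X.z 1 ∈ F
        rw [k2]
        exact mul_mem f3 (f2 _)
    · rw [Set.mem_singleton_iff] at hx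
      rw [hx]
      exact f4
  · intro i h
    exact X.ne i (hinj _ h)
  · intro i j hij a b h
    refine X.diff i j hij a b ?_
    have h1 : M.mulVec (a • X.l i - b • X.l j) = 0 := by
      rw [Matrix.mulVec_sub, Matrix.mulVec_smul, Matrix.mulVec_smul]
      funext s
      have := h s
      simp only [Pi.sub_apply, Pi.smul_apply, smul_eq_mul, Pi.zero_apply]
      rw [this, sub_self]
    have h2 := hinj _ h1
    intro s
    have h3 := congrFun h2 s
    simp only [Pi.sub_apply, Pi.smul_apply, smul_eq_mul, Pi.zero_apply] at h3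
    linear_combination h3

end Pool.Agent.DP
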