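import Pool.Agent.Lib_MP_1209e6_dl.Main

/-! The classification: a double plane branched in degree at most six is special if and only if it is
Brody-special, if and only if its branch curve is not a union of six concurrent lines. -/

set_option autoImplicit false

open MvPolynomial Pool.Agent.Campana Pool.Agent.CampanaFlow

namespace Pool.Agent.DP

/-- the affine linear polynomial `v 0 + v 1 x + v 2 y`; it is a nonzero constant for the line at infinity -/
noncomputable def linPoly (v : Fin 3 → ℂ) : MvPolynomial (Fin 2) ℂ := C (v 0) + C (v 1) * X 0 + C (v 2) * X 1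

theorem aeval_linPoly {K : Type} [Field K] [Algebra ℂ K] (z : Fin 2 → K) (v : Fin 3 → ℂ) :
    aeval z (linPoly v) = lin z v := by
  simp [linPoly, lin]

/-- up to a square, `f` is the product of the equations of six different lines of the projective plane
which pass through the point `p` -/
def SixConcurrentLines (f : MvPolynomial (Fin 2) ℂ) : Prop :=
  ∃ (s : MvPolynomial (Fin 2) ℂ) (l : Fin 6 → Fin 3 → ℂ) (p : Fin 3 → ℂ), p ≠ 0 ∧
    (∀ i, p 0 * l i 0 + p 1 * l i 1 + p 2 * l i 2 = 0) ∧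
    (∀ i j, i ≠ j → ∀ a b : ℂ, (∀ t, a * l i t = b * l j t) → a = 0 ∧ b = 0) ∧
    f = s ^ 2 * ∏ i, linPoly (l i)

/-- the lines of a factorisation of `f` -/
theorem lines_of_fac {K : Type} [Field K] [Algebra ℂ K] {f : MvPolynomial (Fin 2) ℂ} (hf0 : f ≠ 0)
    (hK : IsDoublePlane K f) {m : ℕ} (s : MvPolynomial (Fin 2) ℂ) (l : Fin m → Fin 3 → ℂ)
    (ne : ∀ i, l i ≠ 0) (diff : ∀ i j, i ≠ j → ∀ a b : ℂ, (∀ t, a * l i t = b * l j t) → a = 0 ∧ b = 0)
    (hf : f = s ^ 2 * ∏ i, linPoly (l i)) : ∃ X : Lines K m, X.l = l := by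
  obtain ⟨z, w, hz, hw, hg⟩ := hK
  have hs : s ≠ 0 := by
    rintro rfl
    apply hf0
    rw [hf]
    simp
  have hs1 : aeval z s ≠ 0 := fun h => hs (hz.eq_zero_of_aeval_eq_zero s h)
  refine ⟨⟨z, w / aeval z s, l, hz, ?_, ?_, ne, diff⟩, rfl⟩
  · rw [div_pow, hw, div_eq_iff (pow_ne_zero 2 hs1), hf, map_mul, map_pow, map_prod, mul_comm]
    congr 1
    exact Finset.prod_congr rfl fun i _ => aeval_linPoly z (l i)
  · rw [eq_top_iff, ← hg, IntermediateField.adjoin_le_iff]
    have hz' : ∀ j, z j ∈ IntermediateField.adjoin ℂ (Set.range z ∪ {w / aeval z s}) := fun j =>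
      IntermediateField.subset_adjoin _ _ (Or.inl ⟨j, rfl⟩)
    have hsm : aeval z s ∈ IntermediateField.adjoin ℂ (Set.range z ∪ {w / aeval z s}) := by
      have h1 : aeval z s ∈ Algebra.adjoin ℂ (Set.range z) := by
        rw [Algebra.adjoin_range_eq_range_aeval]
        exact ⟨s, rfl⟩
      have h2 : Algebra.adjoin ℂ (Set.range z) ≤ (IntermediateField.adjoin ℂ
          (Set.range z ∪ {w / aeval z s})).toSubalgebra := by
        rw [Algebra.adjoin_le_iff]
        rintro _ ⟨j, rfl⟩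
        exact hz' j
      exact h2 h1
    rintro a (⟨j, rfl⟩ | rfl)
    · exact hz' j
    · have h2 : a / aeval z s ∈ IntermediateField.adjoin ℂ (Set.range z ∪ {a / aeval z s}) :=
        IntermediateField.subset_adjoin _ _ (Or.inr rfl)
      have h3 := mul_mem h2 hsm
      rwa [div_mul_cancel₀ _ hs1] at h3

/-- a nonzero vector is the last row of an invertible matrix -/
theorem exists_row (p : Fin 3 → ℂ) (hp : p ≠ 0) : ∃ M : Matrix (Fin 3) (Fin 3) ℂ, IsUnit M ∧ M 2 = p := by
  have h3 : p 0 ≠ 0 ∨ p 1 ≠ 0 ∨ p 2 ≠ 0 := by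
    by_contra hc
    push Not at hc
    apply hp
    ext j
    fin_cases j
    · exact hc.1
    · exact hc.2.1
    · exact hc.2.2
  rcases h3 with h | h | h
  · refine ⟨!![0, 1, 0; 0, 0, 1; p 0, p 1, p 2], ?_, ?_⟩
    · rw [Matrix.isUnit_iff_isUnit_det, Matrix.det_fin_three]
      simp [h]
    · ext j
      fin_cases j <;> rfl
  · refine ⟨!![1, 0, 0; 0, 0, 1; p 0, p 1, p 2], ?_, ?_⟩
    · rw [Matrix.isUnit_iff_isUnit_det, Matrix.det_fin_three]
      simp [h]
    · ext j
      fin_cases j <;> rfl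
  · refine ⟨!![1, 0, 0; 0, 1, 0; p 0, p 1, p 2], ?_, ?_⟩
    · rw [Matrix.isUnit_iff_isUnit_det, Matrix.det_fin_three]
      simp [h]
    · ext j
      fin_cases j <;> rfl

/-- six concurrent lines: neither special nor Brody-special -/
theorem neg_six_lines {f : MvPolynomial (Fin 2) ℂ} (hf0 : f ≠ 0) (hs : SixConcurrentLines f) {n : ℕ}
    (P : Ideal (MvPolynomial (Fin (n + 1)) ℂ)) [P.IsPrime] (hP : IsVariety P)
    (hK : IsDoublePlane (FunField P) f) : ¬ SpecialField (FunField P) ∧ ¬ BrodySpecial P := by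
  obtain ⟨s, l, p, hp, hl, diff, hf⟩ := hs
  have ne : ∀ i, l i ≠ 0 := by
    intro i hi
    obtain ⟨j, hj⟩ : ∃ j : Fin 6, i ≠ j := by
      rcases eq_or_ne i 0 with h | h
      · exact ⟨1, by rw [h]; decide⟩
      · exact ⟨0, h⟩
    have h1 := diff i j hj 1 0 fun t => by rw [hi]; simp
    exact one_ne_zero h1.1
  obtain ⟨X, hX⟩ := lines_of_fac hf0 hK s l ne diff hf
  obtain ⟨M, hM, hM2⟩ := exists_row p hp
  have h6 : Even 6 := ⟨3, rfl⟩
  obtain ⟨X', hX'⟩ := change h6 X M hM
  refine neg_lines P hP X' fun i => ?_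
  rw [hX', hX]
  have h2 := hl i
  simp only [Matrix.mulVec, dotProduct, Fin.sum_univ_three]
  rw [hM2]
  exact h2

/-- double planes branched in degree at most six, not along six concurrent lines -/
theorem pos_other {f : MvPolynomial (Fin 2) ℂ} (hf0 : f ≠ 0) (h6 : f.totalDegree ≤ 6)
    (hs : ¬ SixConcurrentLines f) {n : ℕ}
    (P : Ideal (MvPolynomial (Fin (n + 1)) ℂ)) [P.IsPrime] (hP : IsVariety P)
    (hK : IsDoublePlane (FunField P) f) : SpecialField (FunField P) ∧ BrodySpecial P := by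
  by_cases h : ∃ g : MvPolynomial (Fin 2) ℂ, Irreducible g ∧ g ∣ f ∧ 2 ≤ g.totalDegree
  · obtain ⟨g, hg, hgf, h2⟩ := h
    exact double_plane hg h2 hgf hf0 h6 P hP hK
  · have hlin : ∀ g : MvPolynomial (Fin 2) ℂ, Irreducible g → g ∣ f → g.totalDegree ≤ 1 := by
      intro g hg hgf
      by_contra hc
      exact h ⟨g, hg, hgf, by omega⟩
    obtain ⟨m, s, l, hm, hm6, hs0, ne, diff, hf⟩ := exists_factor hf0 h6 hlin
    obtain ⟨X, hX⟩ := lines_of_fac hf0 hK s l ne diff hf
    rcases nodes hm hm6 X.l X.ne X.diff with ⟨h, M, hM, hl⟩ | ⟨M, hM, h2, h1⟩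
    · subst h
      refine absurd ⟨s, l, M 2, ?_, ?_, diff, hf⟩ hs
      · intro h0
        have h1 : M.det = 0 := Matrix.det_eq_zero_of_row_eq_zero 2 fun j => by rw [h0]; rfl
        rw [Matrix.isUnit_iff_isUnit_det, h1] at hM
        exact not_isUnit_zero hM
      · intro i
        have h2 := hl i
        rw [hX] at h2
        simpa only [Matrix.mulVec, dotProduct, Fin.sum_univ_three] using h2
    · obtain ⟨X', hX'⟩ := change hm X M hM
      refine two_pencils P hP X' ?_ ?_
      · simpa only [hX'] using h2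
      · simpa only [hX'] using h1

/-- The classification of the double planes branched in degree at most six. -/
theorem classify {f : MvPolynomial (Fin 2) ℂ} (hf0 : f ≠ 0) (h6 : f.totalDegree ≤ 6) {n : ℕ}
    (P : Ideal (MvPolynomial (Fin (n + 1)) ℂ)) [P.IsPrime] (hP : IsVariety P)
    (hK : IsDoublePlane (FunField P) f) :
    (SpecialField (FunField P) ↔ ¬ SixConcurrentLines f) ∧ (BrodySpecial P ↔ ¬ SixConcurrentLines f) := by
  by_cases hs : SixConcurrentLines f
  · have h := neg_six_lines hf0 hs P hP hK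
    exact ⟨⟨fun h1 => absurd h1 h.1, fun h1 => absurd hs h1⟩,
      ⟨fun h1 => absurd h1 h.2, fun h1 => absurd hs h1⟩⟩
  · have h := pos_other hf0 h6 hs P hP hK
    exact ⟨⟨fun _ => hs, fun _ => h.1⟩, ⟨fun _ => hs, fun _ => h.2⟩⟩

end Pool.Agent.DP
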