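import Pool.Agent.Lib_MP_1209e6_dp.Defs

/-!
# Double planes branched along lines

`MP_1209e6_ag`: the case of the double planes `w² = f` where `f` is a product of linear polynomials.
-/

set_option autoImplicit false

open MvPolynomial

namespace Pool.Agent.DP

/-- the linear form `v 0 + v 1 x + v 2 y` at the point `z = (x, y)` -/
noncomputable def lin {K : Type} [Field K] [Algebra ℂ K] (z : Fin 2 → K) (v : Fin 3 → ℂ) : K :=
  algebraMap ℂ K (v 0) + algebraMap ℂ K (v 1) * z 0 + algebraMap ℂ K (v 2) * z 1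

/-- `K = ℂ(z, w)`, `w² = ∏ lin z (ℓ i)`, the lines `ℓ i` (one of them may be the line at infinity
`(1, 0, 0)`) are pairwise different -/
structure Lines (K : Type) [Field K] [Algebra ℂ K] (m : ℕ) where
  z : Fin 2 → K
  w : K
  l : Fin m → Fin 3 → ℂ
  hz : AlgebraicIndependent ℂ z
  hw : w ^ 2 = ∏ i, lin z (l i)
  gen : IntermediateField.adjoin ℂ (Set.range z ∪ {w}) = ⊤
  ne : ∀ i, l i ≠ 0
  diff : ∀ i j, i ≠ j → ∀ a b : ℂ, (∀ s, a * l i s = b * l j s) → a = 0 ∧ b = 0

end Pool.Agent.DP
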