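import Pool.Agent.Lib_MP_1209e6_dl.Defs
import Pool.Agent.Lib_MP_1209e6_dp.Homog
import Pool.Agent.Lib_MP_1209e6_fl.Main

/-! PIECE DL3: two pencils of curves of genus at most one. -/

set_option autoImplicit false

open MvPolynomial Pool.Agent.Campana Pool.Agent.CampanaFlow

namespace Pool.Agent.DP

/-- a derivation which kills generators kills the field -/
theorem fb_kill {K : Type} [Field K] [Algebra ℂ K] (D : Derivation ℂ K K) (s : Set K)
    (h : ∀ x ∈ s, D x = 0) : ∀ a ∈ IntermediateField.adjoin ℂ s, D a = 0 := by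
  intro a ha
  induction ha using IntermediateField.adjoin_induction with
  | mem x hx => exact h x hx
  | algebraMap c => exact D.map_algebraMap c
  | add x y _ _ hx hy => rw [map_add, hx, hy, add_zero]
  | inv x _ hx => rw [Derivation.leibniz_inv, hx, smul_zero]
  | mul x y _ _ hx hy => rw [D.leibniz, hx, hy, smul_zero, smul_zero, add_zero]

theorem fb_lin_der {K : Type} [Field K] [Algebra ℂ K] (D : Derivation ℂ K K) (z : Fin 2 → K)
    (v : Fin 3 → ℂ) : D (lin z v) = algebraMap ℂ K (v 1) * D (z 0) + algebraMap ℂ K (v 2) * D (z 1) := by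
  unfold lin
  rw [map_add, map_add, D.map_algebraMap, D.leibniz, D.leibniz, D.map_algebraMap, D.map_algebraMap,
    smul_zero, smul_zero, smul_eq_mul, smul_eq_mul]
  ring

theorem fb_lin_ne {K : Type} [Field K] [Algebra ℂ K] {z : Fin 2 → K}
    (hz : AlgebraicIndependent ℂ z) {v : Fin 3 → ℂ} (hv : v ≠ 0) : lin z v ≠ 0 := by
  intro h
  obtain ⟨D0, hD0⟩ := exists_derivation (k := ℂ) z hz ![1, 0]
  obtain ⟨D1, hD1⟩ := exists_derivation (k := ℂ) z hz ![0, 1]
  have h00 : D0 (z 0) = 1 := hD0 0
  have h01 : D0 (z 1) = 0 := hD0 1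
  have h10 : D1 (z 0) = 0 := hD1 0
  have h11 : D1 (z 1) = 1 := hD1 1
  have h1 := fb_lin_der D0 z v
  have h2 := fb_lin_der D1 z v
  rw [h, map_zero, h00, h01, mul_one, mul_zero, add_zero] at h1
  rw [h, map_zero, h10, h11, mul_one, mul_zero, zero_add] at h2
  have h3 : v 1 = 0 := (map_eq_zero (algebraMap ℂ K)).1 h1.symm
  have h4 : v 2 = 0 := (map_eq_zero (algebraMap ℂ K)).1 h2.symm
  have h5 : v 0 = 0 := by
    unfold lin at h
    rw [h3, h4, map_zero, zero_mul, zero_mul, add_zero, add_zero] at h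
    exact (map_eq_zero (algebraMap ℂ K)).1 h
  apply hv
  funext s
  fin_cases s
  · exact h5
  · exact h3
  · exact h4

theorem fb_w_ne {K : Type} [Field K] [Algebra ℂ K] {m : ℕ} (X : Lines K m) : X.w ≠ 0 := by
  intro h
  have h1 := X.hw
  rw [h, zero_pow two_ne_zero] at h1
  obtain ⟨i, -, hi⟩ := Finset.prod_eq_zero_iff.1 h1.symm
  exact fb_lin_ne X.hz (X.ne i) hi

/-- the polynomial of the pencil -/
noncomputable def fb_q {K : Type} [Field K] [Algebra ℂ K] {m : ℕ} (X : Lines K m) :
    Polynomial (IntermediateField.adjoin ℂ {X.z 0}) :=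
  ∏ i, (Polynomial.C (algebraMap ℂ _ (X.l i 0) + algebraMap ℂ _ (X.l i 1) *
    ⟨X.z 0, IntermediateField.mem_adjoin_simple_self ℂ (X.z 0)⟩) +
      Polynomial.C (algebraMap ℂ _ (X.l i 2)) * Polynomial.X)

theorem fb_q_deg {K : Type} [Field K] [Algebra ℂ K] {m : ℕ} (X : Lines K m)
    (h : (Finset.univ.filter fun i => X.l i 2 ≠ 0).card ≤ 4) : (fb_q X).natDegree ≤ 4 := by
  classical
  unfold fb_q
  refine (Polynomial.natDegree_prod_le _ _).trans ?_
  refine le_trans ?_ h
  rw [Finset.card_filter]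
  refine Finset.sum_le_sum fun i _ => ?_
  by_cases hi : X.l i 2 = 0
  · rw [hi, map_zero, map_zero, zero_mul, add_zero, Polynomial.natDegree_C]
    exact Nat.zero_le _
  · rw [if_pos hi, add_comm]
    exact Polynomial.natDegree_linear_le

/-- Pencil `z 0 = constant`: `k = ℂ(z 0)`, `w²` = polynomial of degree `≤ 4` in `t = z 1`; derivation with
`D (z 0) = 0`, `D (z 1) = w` (`ag/Der`); `homogeneous`. -/
theorem pencil {K : Type} [Field K] [Algebra ℂ K] {m : ℕ} (X : Lines K m)
    (h : (Finset.univ.filter fun i => X.l i 2 ≠ 0).card ≤ 4) :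
    AlmostHomogeneous (IntermediateField.adjoin ℂ {X.z 0})
      (![1, X.z 1, X.z 1 ^ 2, X.w] : Fin (3 + 1) → K) := by
  have hw0 := fb_w_ne X
  obtain ⟨D, hD⟩ := exists_derivation (k := ℂ) X.z X.hz ![0, X.w]
  have hD0 : D (X.z 0) = 0 := hD 0
  have hD1 : D (X.z 1) = X.w := hD 1
  have hk : ∀ a ∈ IntermediateField.adjoin ℂ {X.z 0}, D a = 0 :=
    fb_kill D {X.z 0} (fun x hx => by rw [Set.mem_singleton_iff.1 hx]; exact hD0)
  have ht : ¬ IsAlgebraic (IntermediateField.adjoin ℂ {X.z 0}) (X.z 1) := by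
    intro ha
    have h1 := derivation_eq_zero D _ hk (X.z 1) ha
    rw [hD1] at h1
    exact hw0 h1
  refine (homogeneous (IntermediateField.adjoin ℂ {X.z 0}) (X.z 1) X.w
    ((fb_q X).map (algebraMap _ K)) ?_ ?_ ht ?_ hw0 ?_ D hk hD1).1
  · intro n
    rw [Polynomial.coeff_map]
    exact ((fb_q X).coeff n).2
  · exact Polynomial.natDegree_map_le.trans (fb_q_deg X h)
  · rw [X.hw, Polynomial.eval_map]
    unfold fb_q
    rw [Polynomial.eval₂_finsetProd]
    refine Finset.prod_congr rfl fun i _ => ?_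
    rw [Polynomial.eval₂_add, Polynomial.eval₂_mul, Polynomial.eval₂_C, Polynomial.eval₂_C,
      Polynomial.eval₂_X]
    rfl
  · rw [eq_top_iff, ← X.gen]
    refine IntermediateField.adjoin_le_iff.2 ?_
    rintro a (⟨j, rfl⟩ | ha)
    · fin_cases j
      · exact IntermediateField.subset_adjoin _ _
          (Or.inl (IntermediateField.mem_adjoin_simple_self ℂ (X.z 0)))
      · exact IntermediateField.subset_adjoin _ _ (Or.inr (Or.inl rfl))
    · rw [Set.mem_singleton_iff.1 ha]
      exact IntermediateField.subset_adjoin _ _ (Or.inr (Or.inr rfl))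

/-- the coordinates exchanged -/
noncomputable def fb_swap {K : Type} [Field K] [Algebra ℂ K] {m : ℕ} (X : Lines K m) : Lines K m where
  z := fun j => X.z (Equiv.swap 0 1 j)
  w := X.w
  l := fun i => ![X.l i 0, X.l i 2, X.l i 1]
  hz := X.hz.comp _ (Equiv.swap (0 : Fin 2) 1).injective
  hw := by
    rw [X.hw]
    refine Finset.prod_congr rfl fun i _ => ?_
    unfold lin
    simp only [Equiv.swap_apply_left, Equiv.swap_apply_right]
    show _ = algebraMap ℂ K (X.l i 0) + algebraMap ℂ K (X.l i 2) * X.z 1 +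
      algebraMap ℂ K (X.l i 1) * X.z 0
    ring
  gen := by
    rw [← X.gen]
    congr 2
    exact (Equiv.swap (0 : Fin 2) 1).surjective.range_comp X.z
  ne := by
    intro i hi
    apply X.ne i
    have h0 := congrFun hi 0
    have h1 := congrFun hi 1
    have h2 := congrFun hi 2
    funext s
    fin_cases s
    · exact h0
    · exact h2
    · exact h1
  diff := by
    intro i j hij a b hab
    refine X.diff i j hij a b fun s => ?_
    have h0 := hab 0
    have h1 := hab 1
    have h2 := hab 2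
    fin_cases s
    · exact h0
    · exact h2
    · exact h1

/-- common constants of the two pencils -/
theorem fb_const {K : Type} [Field K] [Algebra ℂ K] {m : ℕ} (X : Lines K m) (u : K)
    (h0 : IsAlgebraic (IntermediateField.adjoin ℂ {X.z 0}) u)
    (h1 : IsAlgebraic (IntermediateField.adjoin ℂ {X.z 1}) u) :
    ∃ c : ℂ, u = algebraMap ℂ K c := by
  have hw0 := fb_w_ne X
  obtain ⟨D0, hD0⟩ := exists_derivation (k := ℂ) X.z X.hz ![1, 0]
  obtain ⟨D1, hD1⟩ := exists_derivation (k := ℂ) X.z X.hz ![0, 1]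
  have h00 : D0 (X.z 0) = 1 := hD0 0
  have h01 : D0 (X.z 1) = 0 := hD0 1
  have h10 : D1 (X.z 0) = 0 := hD1 0
  have h11 : D1 (X.z 1) = 1 := hD1 1
  have hu0 : D0 u = 0 := derivation_eq_zero D0 _
    (fb_kill D0 {X.z 1} (fun x hx => by rw [Set.mem_singleton_iff.1 hx]; exact h01)) u h1
  have hu1 : D1 u = 0 := derivation_eq_zero D1 _
    (fb_kill D1 {X.z 0} (fun x hx => by rw [Set.mem_singleton_iff.1 hx]; exact h10)) u h0
  have hint : IsAlgebraic ℂ u := by
    by_contra hu
    have hind : AlgebraicIndependent ℂ (fun _ : Unit => u) :=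
      algebraicIndependent_unique_type_iff.2 hu
    obtain ⟨E, hE⟩ := exists_derivation (k := ℂ) (fun _ : Unit => u) hind (fun _ => 1)
    have hEu : E u = 1 := hE ()
    let E' : Derivation ℂ K K := E - E (X.z 0) • D0 - E (X.z 1) • D1
    have hE' : ∀ a, E' a = E a - E (X.z 0) * D0 a - E (X.z 1) * D1 a := fun a => rfl
    have hz : ∀ x ∈ Set.range X.z, E' x = 0 := by
      rintro x ⟨j, rfl⟩
      fin_cases j
      · show E' (X.z 0) = 0
        rw [hE', h00, h10]
        ring
      · show E' (X.z 1) = 0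
        rw [hE', h01, h11]
        ring
    have hw : E' X.w = 0 := by
      have h2 : E' (X.w ^ 2) = 0 := by
        rw [X.hw]
        refine fb_kill E' (Set.range X.z) hz _ (prod_mem fun i _ => ?_)
        unfold lin
        refine add_mem (add_mem (algebraMap_mem _ _) (mul_mem (algebraMap_mem _ _) ?_))
          (mul_mem (algebraMap_mem _ _) ?_)
        · exact IntermediateField.subset_adjoin _ _ ⟨0, rfl⟩
        · exact IntermediateField.subset_adjoin _ _ ⟨1, rfl⟩
      have h4 : CharZero K := charZero_of_injective_algebraMap (algebraMap ℂ K).injective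
      rw [pow_two, Derivation.leibniz, smul_eq_mul, ← two_mul] at h2
      have h3 := (mul_eq_zero.1 h2).resolve_left two_ne_zero
      exact (mul_eq_zero.1 h3).resolve_left hw0
    have hall : E' u = 0 := by
      refine fb_kill E' (Set.range X.z ∪ {X.w}) ?_ u (by rw [X.gen]; trivial)
      rintro x (hx | hx)
      · exact hz x hx
      · rw [Set.mem_singleton_iff.1 hx]
        exact hw
    rw [hE', hu0, hu1, hEu, mul_zero, mul_zero, sub_zero, sub_zero] at hall
    exact one_ne_zero hall
  have h9 : (minpoly ℂ u).degree = 1 :=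
    IsAlgClosed.degree_eq_one_of_irreducible ℂ (minpoly.irreducible hint.isIntegral)
  obtain ⟨c, hc⟩ := minpoly.mem_range_of_degree_eq_one ℂ u h9
  exact ⟨c, hc.symm⟩

/-- `pencil` for `X` and for the family with the coordinates exchanged; `main` of `fl/Main`; an element
algebraic over `ℂ(z 0)` and over `ℂ(z 1)` is a constant (`z` is algebraically independent). -/
theorem two_pencils {n : ℕ} (P : Ideal (MvPolynomial (Fin (n + 1)) ℂ)) [P.IsPrime] (hP : IsVariety P)
    {m : ℕ} (X : Lines (FunField P) m) (h2 : (Finset.univ.filter fun i => X.l i 2 ≠ 0).card ≤ 4)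
    (h1 : (Finset.univ.filter fun i => X.l i 1 ≠ 0).card ≤ 4) :
    SpecialField (FunField P) ∧ BrodySpecial P := by
  have hp1 := pencil X h2
  have hp2 := pencil (fb_swap X) h1
  refine Pool.Agent.CampanaFlow.main P hP
    ![IntermediateField.adjoin ℂ {X.z 0}, IntermediateField.adjoin ℂ {X.z 1}] (fun _ => 3)
    ![![1, X.z 1, X.z 1 ^ 2, X.w], ![1, X.z 0, X.z 0 ^ 2, X.w]] ?_ ?_
  · intro i
    fin_cases i
    · exact hp1
    · exact hp2
  · intro u hu
    exact fb_const X u (hu 0) (hu 1)

end Pool.Agent.DP
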