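import Pool.Agent.Lib_MP_1209e6_dl.Defs
import Pool.Agent.Lib_MP_1209e6_dp.NegSix

/-! PIECE DL5 (helper36, from `neg_hyper`): six lines of a pencil. -/

set_option autoImplicit false

open MvPolynomial Pool.Agent.Campana

namespace Pool.Agent.DP

/-- `w² = ∏ (l i 0 + l i 1 z 0)`, a squarefree polynomial of degree `5` or `6` in `z 0`. -/
theorem neg_lines {n : ℕ} (P : Ideal (MvPolynomial (Fin (n + 1)) ℂ)) [P.IsPrime] (hP : IsVariety P)
    (X : Lines (FunField P) 6) (h : ∀ i, X.l i 2 = 0) :
    ¬ SpecialField (FunField P) ∧ ¬ BrodySpecial P := by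
  refine neg_six P hP (X.z 0) 1 1 X.w ?_ one_ne_zero 1 one_ne_zero (fun i => X.l i 1)
    (fun i => X.l i 0) ?_ ?_
  · rw [div_one]
    exact X.hz.transcendental 0
  · intro i j hij h0
    have h1 := X.diff i j hij (X.l j 1) (X.l i 1) (by
      intro s
      fin_cases s
      · simp only [Fin.zero_eta, Fin.isValue]
        linear_combination -h0
      · simp only [Fin.mk_one, Fin.isValue]
        ring
      · simp only [Fin.reduceFinMk]
        rw [h i, h j, mul_zero, mul_zero])
    have h2 := X.diff i j hij (X.l j 0) (X.l i 0) (by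
      intro s
      fin_cases s
      · simp only [Fin.zero_eta, Fin.isValue]
        ring
      · simp only [Fin.mk_one, Fin.isValue]
        rw [h1.1, h1.2, mul_zero, mul_zero]
      · simp only [Fin.reduceFinMk]
        rw [h i, h j, mul_zero, mul_zero])
    apply X.ne i
    funext s
    fin_cases s
    · exact h2.2
    · exact h1.2
    · exact h i
  · rw [X.hw, map_one, one_pow, mul_one, one_mul]
    refine Finset.prod_congr rfl fun i _ => ?_
    unfold lin
    rw [h i, map_zero, zero_mul, mul_one]
    ring

end Pool.Agent.DP
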