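import Mathlib

/-! PIECE DL4: two nodes of a configuration of at most six lines. -/

set_option autoImplicit false

namespace Pool.Agent.DP

/-- the cross product -/
def nodes_cr (u v : Fin 3 → ℂ) : Fin 3 → ℂ :=
  ![u 1 * v 2 - u 2 * v 1, u 2 * v 0 - u 0 * v 2, u 0 * v 1 - u 1 * v 0]

theorem nodes_cr_ne {u v : Fin 3 → ℂ}
    (h : ∀ a b : ℂ, (∀ s, a * u s = b * v s) → a = 0 ∧ b = 0) : nodes_cr u v ≠ 0 := by
  intro h0
  have e0 : u 1 * v 2 - u 2 * v 1 = 0 := by simpa [nodes_cr] using congrFun h0 0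
  have e1 : u 2 * v 0 - u 0 * v 2 = 0 := by simpa [nodes_cr] using congrFun h0 1
  have e2 : u 0 * v 1 - u 1 * v 0 = 0 := by simpa [nodes_cr] using congrFun h0 2
  have hu : ∀ t, u t = 0 := by
    intro t
    refine (h (v t) (u t) ?_).2
    intro s
    fin_cases t <;> fin_cases s <;> simp only [Fin.zero_eta, Fin.mk_one, Fin.reduceFinMk,
      Fin.isValue]
    · ring
    · linear_combination -e2
    · linear_combination e1
    · linear_combination e2
    · ring
    · linear_combination -e0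
    · linear_combination -e1
    · linear_combination e0
    · ring
  exact one_ne_zero (h 1 0 fun s => by rw [hu s, mul_zero, zero_mul]).1

theorem nodes_row {M : Matrix (Fin 3) (Fin 3) ℂ} (j : Fin 3) (v : Fin 3 → ℂ) :
    M.mulVec v j = M j 0 * v 0 + M j 1 * v 1 + M j 2 * v 2 := by
  simp [Matrix.mulVec, dotProduct, Fin.sum_univ_three]

theorem nodes_card {A : Fin 6 → Prop} [DecidablePred A] {i j : Fin 6} (hij : i ≠ j) (hi : ¬ A i)
    (hj : ¬ A j) : (Finset.univ.filter A).card ≤ 4 := by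
  have h1 : Finset.univ.filter A ⊆ (Finset.univ.erase i).erase j := by
    intro k hk
    have hk' := (Finset.mem_filter.1 hk).2
    rw [Finset.mem_erase, Finset.mem_erase]
    exact ⟨fun h => hj (h ▸ hk'), fun h => hi (h ▸ hk'), Finset.mem_univ _⟩
  refine (Finset.card_le_card h1).trans ?_
  rw [Finset.card_erase_of_mem (Finset.mem_erase.2 ⟨hij.symm, Finset.mem_univ _⟩),
    Finset.card_erase_of_mem (Finset.mem_univ _), Finset.card_univ, Fintype.card_fin]

theorem nodes_six (l : Fin 6 → Fin 3 → ℂ)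
    (diff : ∀ i j, i ≠ j → ∀ a b : ℂ, (∀ s, a * l i s = b * l j s) → a = 0 ∧ b = 0) :
    (∃ M : Matrix (Fin 3) (Fin 3) ℂ, IsUnit M ∧ ∀ i, M.mulVec (l i) 2 = 0) ∨
      ∃ M : Matrix (Fin 3) (Fin 3) ℂ, IsUnit M ∧
        (Finset.univ.filter fun i => M.mulVec (l i) 2 ≠ 0).card ≤ 4 ∧
        (Finset.univ.filter fun i => M.mulVec (l i) 1 ≠ 0).card ≤ 4 := by
  classical
  have hp : nodes_cr (l 0) (l 1) ≠ 0 := nodes_cr_ne (diff 0 1 (by decide))
  generalize hpd : nodes_cr (l 0) (l 1) = p at hp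
  have hp0 : p 0 * l 0 0 + p 1 * l 0 1 + p 2 * l 0 2 = 0 := by
    rw [← hpd]; simp [nodes_cr]; ring
  have hp1 : p 0 * l 1 0 + p 1 * l 1 1 + p 2 * l 1 2 = 0 := by
    rw [← hpd]; simp [nodes_cr]; ring
  by_cases hall : ∀ i, p 0 * l i 0 + p 1 * l i 1 + p 2 * l i 2 = 0
  · left
    have h3 : p 0 ≠ 0 ∨ p 1 ≠ 0 ∨ p 2 ≠ 0 := by
      by_contra hc
      push Not at hc
      apply hp
      funext s
      fin_cases s
      · exact hc.1
      · exact hc.2.1
      · exact hc.2.2
    rcases h3 with h3 | h3 | h3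
    · refine ⟨!![0, 1, 0; 0, 0, 1; p 0, p 1, p 2], ?_, fun i => ?_⟩
      · rw [Matrix.isUnit_iff_isUnit_det, Matrix.det_fin_three, isUnit_iff_ne_zero]
        simpa using h3
      · rw [nodes_row]; simpa using hall i
    · refine ⟨!![1, 0, 0; 0, 0, 1; p 0, p 1, p 2], ?_, fun i => ?_⟩
      · rw [Matrix.isUnit_iff_isUnit_det, Matrix.det_fin_three, isUnit_iff_ne_zero]
        simpa using h3
      · rw [nodes_row]; simpa using hall i
    · refine ⟨!![1, 0, 0; 0, 1, 0; p 0, p 1, p 2], ?_, fun i => ?_⟩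
      · rw [Matrix.isUnit_iff_isUnit_det, Matrix.det_fin_three, isUnit_iff_ne_zero]
        simpa using h3
      · rw [nodes_row]; simpa using hall i
  · right
    push Not at hall
    obtain ⟨k, hk⟩ := hall
    have hk0 : (0 : Fin 6) ≠ k := by
      rintro rfl
      exact hk hp0
    have hq : nodes_cr (l 0) (l k) ≠ 0 := nodes_cr_ne (diff 0 k hk0)
    generalize hqd : nodes_cr (l 0) (l k) = q at hq
    have hq0 : q 0 * l 0 0 + q 1 * l 0 1 + q 2 * l 0 2 = 0 := by
      rw [← hqd]; simp [nodes_cr]; ring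
    have hqk : q 0 * l k 0 + q 1 * l k 1 + q 2 * l k 2 = 0 := by
      rw [← hqd]; simp [nodes_cr]; ring
    have hr : nodes_cr q p ≠ 0 := by
      refine nodes_cr_ne fun a b hab => ?_
      have h1 : b * (p 0 * l k 0 + p 1 * l k 1 + p 2 * l k 2) = 0 := by
        linear_combination a * hqk - l k 0 * hab 0 - l k 1 * hab 1 - l k 2 * hab 2
      have hb : b = 0 := (mul_eq_zero.1 h1).resolve_right hk
      refine ⟨?_, hb⟩
      by_contra ha
      apply hq
      funext s
      have h2 := hab s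
      rw [hb, zero_mul] at h2
      exact (mul_eq_zero.1 h2).resolve_left ha
    have h3 : q 1 * p 2 - q 2 * p 1 ≠ 0 ∨ q 2 * p 0 - q 0 * p 2 ≠ 0 ∨
        q 0 * p 1 - q 1 * p 0 ≠ 0 := by
      by_contra hc
      push Not at hc
      apply hr
      funext s
      fin_cases s
      · simpa [nodes_cr] using hc.1
      · simpa [nodes_cr] using hc.2.1
      · simpa [nodes_cr] using hc.2.2
    have key : ∀ e : Fin 3 → ℂ, e 0 * (q 1 * p 2 - q 2 * p 1) + e 1 * (q 2 * p 0 - q 0 * p 2) +
        e 2 * (q 0 * p 1 - q 1 * p 0) ≠ 0 → ∃ M : Matrix (Fin 3) (Fin 3) ℂ, IsUnit M ∧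
        (Finset.univ.filter fun i => M.mulVec (l i) 2 ≠ 0).card ≤ 4 ∧
        (Finset.univ.filter fun i => M.mulVec (l i) 1 ≠ 0).card ≤ 4 := by
      intro e he
      refine ⟨!![e 0, e 1, e 2; q 0, q 1, q 2; p 0, p 1, p 2], ?_, ?_, ?_⟩
      · rw [Matrix.isUnit_iff_isUnit_det, Matrix.det_fin_three, isUnit_iff_ne_zero]
        intro h0
        apply he
        simp only [Matrix.of_apply, Matrix.cons_val', Matrix.cons_val_zero, Matrix.cons_val_one,
          Matrix.cons_val_fin_one, Matrix.cons_val] at h0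
        linear_combination h0
      · refine nodes_card (i := 0) (j := 1) (by decide) ?_ ?_
        · rw [not_not, nodes_row]; simpa using hp0
        · rw [not_not, nodes_row]; simpa using hp1
      · refine nodes_card (i := 0) (j := k) hk0 ?_ ?_
        · rw [not_not, nodes_row]; simpa using hq0
        · rw [not_not, nodes_row]; simpa using hqk
    rcases h3 with h3 | h3 | h3
    · exact key ![1, 0, 0] (by simpa using h3)
    · exact key ![0, 1, 0] (by simpa using h3)
    · exact key ![0, 0, 1] (by simpa using h3)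

/-- `m ≤ 5`: in fact `m` even, so `m ≤ 4` and `M = 1`. `m = 6`: `p` = the common zero of `l 0, l 1` (cross
product); if all lines pass through `p`, first case; otherwise `l k` does not, `p'` = the common zero of
`l 0, l k`. `M` = matrix with the rows `p''`, `p'`, `p` (`p''` completes a basis). -/
theorem nodes {m : ℕ} (hm : Even m) (h6 : m ≤ 6) (l : Fin m → Fin 3 → ℂ) (ne : ∀ i, l i ≠ 0)
    (diff : ∀ i j, i ≠ j → ∀ a b : ℂ, (∀ s, a * l i s = b * l j s) → a = 0 ∧ b = 0) :
    (m = 6 ∧ ∃ M : Matrix (Fin 3) (Fin 3) ℂ, IsUnit M ∧ ∀ i, M.mulVec (l i) 2 = 0) ∨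
      ∃ M : Matrix (Fin 3) (Fin 3) ℂ, IsUnit M ∧
        (Finset.univ.filter fun i => M.mulVec (l i) 2 ≠ 0).card ≤ 4 ∧
        (Finset.univ.filter fun i => M.mulVec (l i) 1 ≠ 0).card ≤ 4 := by
  by_cases h : m = 6
  · subst h
    rcases nodes_six l diff with h1 | h1
    · exact Or.inl ⟨rfl, h1⟩
    · exact Or.inr h1
  · right
    have h4 : m ≤ 4 := by
      obtain ⟨r, hr⟩ := hm
      omega
    refine ⟨1, isUnit_one, ?_, ?_⟩
    · refine (Finset.card_le_univ _).trans ?_
      rw [Fintype.card_fin]; exact h4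
    · refine (Finset.card_le_univ _).trans ?_
      rw [Fintype.card_fin]; exact h4

end Pool.Agent.DP
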