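import Pool.Agent.Lib_MP_1209e6_dl.Norm
import Pool.Agent.Lib_MP_1209e6_dl.Change
import Pool.Agent.Lib_MP_1209e6_dl.Fibre
import Pool.Agent.Lib_MP_1209e6_dl.Nodes
import Pool.Agent.Lib_MP_1209e6_dl.NegLines
import Pool.Agent.Lib_MP_1209e6_dp.Main

/-! Assembly: Campana's question for the double planes branched in degree at most six. -/

set_option autoImplicit false

open MvPolynomial Pool.Agent.Campana Pool.Agent.CampanaFlow

namespace Pool.Agent.DP

theorem lines_case {f : MvPolynomial (Fin 2) ℂ} (hf0 : f ≠ 0) (h6 : f.totalDegree ≤ 6)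
    (hlin : ∀ g : MvPolynomial (Fin 2) ℂ, Irreducible g → g ∣ f → g.totalDegree ≤ 1) {n : ℕ}
    (P : Ideal (MvPolynomial (Fin (n + 1)) ℂ)) [P.IsPrime] (hP : IsVariety P)
    (hK : IsDoublePlane (FunField P) f) :
    (SpecialField (FunField P) ∧ BrodySpecial P) ∨
      (¬ SpecialField (FunField P) ∧ ¬ BrodySpecial P) := by
  obtain ⟨m, hm, hm6, ⟨X⟩⟩ := exists_lines hf0 h6 hlin hK
  rcases nodes hm hm6 X.l X.ne X.diff with ⟨h, M, hM, hl⟩ | ⟨M, hM, h2, h1⟩
  · subst h
    obtain ⟨X', hX'⟩ := change hm X M hM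
    exact Or.inr (neg_lines P hP X' fun i => by rw [hX']; exact hl i)
  · obtain ⟨X', hX'⟩ := change hm X M hM
    refine Or.inl (two_pencils P hP X' ?_ ?_)
    · simpa only [hX'] using h2
    · simpa only [hX'] using h1

/-- Campana's question for double planes branched in degree at most six -/
theorem double_planes {f : MvPolynomial (Fin 2) ℂ} (hf0 : f ≠ 0) (h6 : f.totalDegree ≤ 6) {n : ℕ}
    (P : Ideal (MvPolynomial (Fin (n + 1)) ℂ)) [P.IsPrime] (hP : IsVariety P)
    (hK : IsDoublePlane (FunField P) f) :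
    (SpecialField (FunField P) ↔ BrodySpecial P) ∧
      ((∃ g : MvPolynomial (Fin 2) ℂ, Irreducible g ∧ g ∣ f ∧ 2 ≤ g.totalDegree) →
        SpecialField (FunField P) ∧ BrodySpecial P) := by
  have hpos : (∃ g : MvPolynomial (Fin 2) ℂ, Irreducible g ∧ g ∣ f ∧ 2 ≤ g.totalDegree) →
      SpecialField (FunField P) ∧ BrodySpecial P := by
    rintro ⟨g, hg, hgf, h2⟩
    exact double_plane hg h2 hgf hf0 h6 P hP hK
  refine ⟨?_, hpos⟩
  by_cases h : ∃ g : MvPolynomial (Fin 2) ℂ, Irreducible g ∧ g ∣ f ∧ 2 ≤ g.totalDegree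
  · exact ⟨fun _ => (hpos h).2, fun _ => (hpos h).1⟩
  · have hlin : ∀ g : MvPolynomial (Fin 2) ℂ, Irreducible g → g ∣ f → g.totalDegree ≤ 1 := by
      intro g hg hgf
      by_contra hc
      exact h ⟨g, hg, hgf, by omega⟩
    rcases lines_case hf0 h6 hlin P hP hK with h1 | h1
    · exact ⟨fun _ => h1.2, fun _ => h1.1⟩
    · exact ⟨fun h2 => absurd h2 h1.1, fun h2 => absurd h2 h1.2⟩

end Pool.Agent.DP
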