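import Pool.Agent.Lib_MP_1209e6_dl.Defs

/-! PIECE DL1: normal form. -/

set_option autoImplicit false

open MvPolynomial

namespace Pool.Agent.DP

/-- the linear polynomial of a line -/
noncomputable def lpoly (v : Fin 3 → ℂ) : MvPolynomial (Fin 2) ℂ :=
  C (v 0) + C (v 1) * X 0 + C (v 2) * X 1

theorem lpoly_smul (c : ℂ) (v : Fin 3 → ℂ) : lpoly (fun t => c * v t) = C c * lpoly v := by
  unfold lpoly
  simp only [C_mul]
  ring

theorem lpoly_eq_zero {v : Fin 3 → ℂ} (h : lpoly v = 0) : v = 0 := by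
  unfold lpoly at h
  have h1 : ∀ a b : ℂ, v 0 + v 1 * a + v 2 * b = 0 := by
    intro a b
    have h2 := congrArg (eval ![a, b]) h
    simpa using h2
  have e0 := h1 0 0
  have e1 := h1 1 0
  have e2 := h1 0 1
  simp only [mul_zero, mul_one, add_zero] at e0 e1 e2
  rw [e0, zero_add] at e1
  rw [e0, zero_add] at e2
  funext t
  fin_cases t
  · exact e0
  · exact e1
  · exact e2

theorem lpoly_inj {v v' : Fin 3 → ℂ} (h : lpoly v = lpoly v') : v = v' := by
  have h1 : lpoly (fun t => v t - v' t) = 0 := by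
    have h2 : lpoly (fun t => v t - v' t) = lpoly v - lpoly v' := by
      unfold lpoly
      simp only [C_sub]
      ring
    rw [h2, h, sub_self]
  have h3 := lpoly_eq_zero h1
  funext t
  have h4 := congrFun h3 t
  exact sub_eq_zero.1 h4

/-- a polynomial of degree at most one -/
theorem lpoly_of_degree {p : MvPolynomial (Fin 2) ℂ} (hp : p.totalDegree ≤ 1) :
    p = lpoly ![coeff 0 p, coeff (Finsupp.single 0 1) p, coeff (Finsupp.single 1 1) p] := by
  classical
  ext m
  unfold lpoly
  simp only [Matrix.cons_val_zero, Matrix.cons_val_one, Matrix.cons_val, coeff_add, coeff_C,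
    coeff_C_mul, coeff_X']
  by_cases h0 : m = 0
  · subst h0
    have e0 : ¬ (Finsupp.single (0 : Fin 2) 1 = (0 : Fin 2 →₀ ℕ)) := by
      rw [Finsupp.single_eq_zero]; exact one_ne_zero
    have e1 : ¬ (Finsupp.single (1 : Fin 2) 1 = (0 : Fin 2 →₀ ℕ)) := by
      rw [Finsupp.single_eq_zero]; exact one_ne_zero
    rw [if_pos rfl, if_neg e0, if_neg e1, mul_zero, mul_zero, add_zero, add_zero]
  by_cases h1 : m = Finsupp.single 0 1
  · subst h1
    have e1 : ¬ (Finsupp.single (1 : Fin 2) 1 = Finsupp.single (0 : Fin 2) 1) := by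
      intro h
      have := (Finsupp.single_left_inj one_ne_zero).1 h
      exact absurd this (by decide)
    rw [if_neg (Ne.symm h0), if_pos rfl, if_neg e1, mul_one, mul_zero, zero_add, add_zero]
  by_cases h2 : m = Finsupp.single 1 1
  · subst h2
    have e1 : ¬ (Finsupp.single (0 : Fin 2) 1 = Finsupp.single (1 : Fin 2) 1) := by
      intro h
      have := (Finsupp.single_left_inj one_ne_zero).1 h
      exact absurd this (by decide)
    rw [if_neg (Ne.symm h0), if_pos rfl, if_neg e1, mul_one, mul_zero, zero_add, zero_add]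
  · rw [if_neg (Ne.symm h0), if_neg (Ne.symm h1), if_neg (Ne.symm h2), mul_zero, mul_zero,
      add_zero, add_zero]
    apply coeff_eq_zero_of_totalDegree_lt
    refine lt_of_le_of_lt hp ?_
    have hs : ∑ i ∈ m.support, m i = m 0 + m 1 := by
      have h3 : ∑ i ∈ m.support, m i = ∑ i : Fin 2, m i := by
        apply Finset.sum_subset (Finset.subset_univ _)
        intro i _ hi
        exact Finsupp.notMem_support_iff.1 hi
      rw [h3, Fin.sum_univ_two]
    rw [hs]
    by_contra hc
    have h4 : m 0 + m 1 ≤ 1 := by omega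
    have h5 : (m 0 = 0 ∧ m 1 = 0) ∨ (m 0 = 1 ∧ m 1 = 0) ∨ (m 0 = 0 ∧ m 1 = 1) := by omega
    rcases h5 with ⟨a, b⟩ | ⟨a, b⟩ | ⟨a, b⟩
    · apply h0
      ext i
      fin_cases i
      · exact a
      · exact b
    · apply h1
      ext i
      fin_cases i
      · simpa using a
      · simpa using b
    · apply h2
      ext i
      fin_cases i
      · simpa using a
      · simpa using b

/-- the two lines are different -/
def NonProp (v v' : Fin 3 → ℂ) : Prop :=
  ∀ a b : ℂ, (∀ t, a * v t = b * v' t) → a = 0 ∧ b = 0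

theorem NonProp.symm {v v' : Fin 3 → ℂ} (h : NonProp v v') : NonProp v' v := by
  intro a b hab
  have := h b a fun t => (hab t).symm
  exact ⟨this.2, this.1⟩

theorem nonProp_of_not_assoc {v v' : Fin 3 → ℂ} (hv : v ≠ 0) (hv' : v' ≠ 0)
    (h : ∀ c : ℂ, c ≠ 0 → lpoly v ≠ C c * lpoly v') : NonProp v v' := by
  intro a b hab
  by_cases ha : a = 0
  · refine ⟨ha, ?_⟩
    by_contra hb
    apply hv'
    funext t
    have := hab t
    rw [ha, zero_mul] at this
    exact (mul_eq_zero.1 this.symm).resolve_left hb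
  · exfalso
    by_cases hb : b = 0
    · apply hv
      funext t
      have := hab t
      rw [hb, zero_mul] at this
      exact (mul_eq_zero.1 this).resolve_left ha
    · refine h (a⁻¹ * b) (mul_ne_zero (inv_ne_zero ha) hb) ?_
      rw [← lpoly_smul]
      congr 1
      funext t
      rw [mul_assoc, ← hab t, ← mul_assoc, inv_mul_cancel₀ ha, one_mul]

theorem isUnit_of_totalDegree_zero {p : MvPolynomial (Fin 2) ℂ} (hp : p ≠ 0)
    (h : p.totalDegree = 0) : IsUnit p := by
  rw [totalDegree_eq_zero_iff_eq_C] at h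
  rw [h]
  apply IsUnit.map
  rw [isUnit_iff_ne_zero]
  intro h0
  apply hp
  rw [h, h0, C_0]

/-- the squarefree factorisation, as a list of affine lines -/
theorem norm_list (f : MvPolynomial (Fin 2) ℂ) : f ≠ 0 →
    (∀ g : MvPolynomial (Fin 2) ℂ, Irreducible g → g ∣ f → g.totalDegree ≤ 1) →
    ∃ (s : MvPolynomial (Fin 2) ℂ) (l : List (Fin 3 → ℂ)), s ≠ 0 ∧
      (∀ v ∈ l, v 1 ≠ 0 ∨ v 2 ≠ 0) ∧ l.Pairwise NonProp ∧ l.length ≤ f.totalDegree ∧
      f = s ^ 2 * (l.map lpoly).prod := by
  induction f using WfDvdMonoid.induction_on_irreducible with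
  | zero => intro h; exact absurd rfl h
  | unit u hu =>
    intro hu0 _
    obtain ⟨c, hc⟩ : ∃ c : ℂ, u = C c := by
      obtain ⟨c, -, hc⟩ := (MvPolynomial.isUnit_iff_eq_C_of_isReduced).1 hu
      exact ⟨c, hc⟩
    obtain ⟨d, hd⟩ := IsAlgClosed.exists_pow_nat_eq c (n := 2) (by norm_num)
    refine ⟨C d, [], ?_, ?_, List.Pairwise.nil, ?_, ?_⟩
    · intro h0
      rw [C_eq_zero] at h0
      apply hu0
      rw [hc, ← hd, h0]
      simp
    · intro v hv
      simp at hv
    · simp
    · rw [List.map_nil, List.prod_nil, mul_one, hc, ← hd, C_pow]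
  | mul a p ha hp ih =>
    intro hpa hlin
    have hp0 : p ≠ 0 := hp.ne_zero
    obtain ⟨s, l, hs, hl1, hl2, hl3, hl4⟩ := ih ha fun g hg hga =>
      hlin g hg (hga.trans (Dvd.intro_left p rfl))
    have hpd : p.totalDegree ≤ 1 := hlin p hp (Dvd.intro a rfl)
    have hpd1 : p.totalDegree ≠ 0 := fun h => hp.not_isUnit (isUnit_of_totalDegree_zero hp0 h)
    obtain ⟨v, hv⟩ : ∃ v : Fin 3 → ℂ, p = lpoly v := ⟨_, lpoly_of_degree hpd⟩
    have hv12 : v 1 ≠ 0 ∨ v 2 ≠ 0 := by
      by_contra hc
      push Not at hc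
      apply hpd1
      rw [hv]
      unfold lpoly
      rw [hc.1, hc.2]
      simp
    have hv0 : v ≠ 0 := by
      rintro rfl
      simp at hv12
    have hdeg : (p * a).totalDegree = p.totalDegree + a.totalDegree :=
      totalDegree_mul_of_isDomain hp0 ha
    by_cases hex : ∃ v' ∈ l, ∃ c : ℂ, c ≠ 0 ∧ lpoly v = C c * lpoly v'
    · obtain ⟨v', hv'l, c, hc, hvc⟩ := hex
      obtain ⟨l₁, l₂, rfl⟩ := List.append_of_mem hv'l
      obtain ⟨d, hd⟩ := IsAlgClosed.exists_pow_nat_eq c (n := 2) (by norm_num)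
      refine ⟨s * (C d * lpoly v'), l₁ ++ l₂, ?_, ?_, ?_, ?_, ?_⟩
      · refine mul_ne_zero hs (mul_ne_zero ?_ ?_)
        · intro h0
          rw [C_eq_zero] at h0
          apply hc
          rw [← hd, h0]
          simp
        · intro h0
          apply hp0
          rw [hv, hvc, h0, mul_zero]
      · intro x hx
        apply hl1 x
        rw [List.mem_append] at hx ⊢
        rcases hx with hx | hx
        · exact Or.inl hx
        · exact Or.inr (List.mem_cons_of_mem _ hx)
      · exact hl2.sublist (List.Sublist.append (List.Sublist.refl _) (List.sublist_cons_self _ _))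
      · rw [List.length_append, List.length_cons] at hl3
        rw [hdeg, List.length_append]
        omega
      · rw [List.map_append, List.prod_append]
        have h5 : a = s ^ 2 * ((l₁.map lpoly).prod * (lpoly v' * (l₂.map lpoly).prod)) := by
          conv_lhs => rw [hl4]
          rw [List.map_append, List.prod_append, List.map_cons, List.prod_cons]
        have h6 : (C c : MvPolynomial (Fin 2) ℂ) = C d ^ 2 := by rw [← hd, C_pow]
        rw [hv, hvc, h6]
        conv_lhs => rw [h5]
        ring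
    · push Not at hex
      refine ⟨s, v :: l, hs, ?_, ?_, ?_, ?_⟩
      · intro x hx
        rcases List.mem_cons.1 hx with rfl | hx
        · exact hv12
        · exact hl1 x hx
      · refine List.Pairwise.cons ?_ hl2
        intro v' hv'
        refine nonProp_of_not_assoc hv0 ?_ fun c hc => hex v' hv' c hc
        rintro rfl
        have := hl1 _ hv'
        simp at this
      · rw [hdeg, List.length_cons]
        omega
      · rw [List.map_cons, List.prod_cons, ← hv]
        conv_lhs => rw [hl4]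
        ring

/-- the line at infinity is different from the affine lines. -/
theorem nonProp_infty {v : Fin 3 → ℂ} (h : v 1 ≠ 0 ∨ v 2 ≠ 0) : NonProp ![1, 0, 0] v := by
  intro a b hab
  have h0 := hab 0
  have h1 := hab 1
  have h2 := hab 2
  simp only [Matrix.cons_val_zero, Matrix.cons_val_one, Matrix.cons_val, mul_one, mul_zero] at h0 h1 h2
  have hb : b = 0 := by
    rcases h with h | h
    · exact (mul_eq_zero.1 h1.symm).resolve_right h
    · exact (mul_eq_zero.1 h2.symm).resolve_right h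
  rw [hb, zero_mul] at h0
  exact ⟨h0, hb⟩

/-- the factorisation `f = s² ∏ ℓ_i` with an even number of different lines (the line at infinity has the
polynomial `1`). -/
theorem exists_factor {f : MvPolynomial (Fin 2) ℂ} (hf0 : f ≠ 0) (h6 : f.totalDegree ≤ 6)
    (hlin : ∀ g : MvPolynomial (Fin 2) ℂ, Irreducible g → g ∣ f → g.totalDegree ≤ 1) :
    ∃ (m : ℕ) (s : MvPolynomial (Fin 2) ℂ) (l : Fin m → Fin 3 → ℂ), Even m ∧ m ≤ 6 ∧ s ≠ 0 ∧
      (∀ i, l i ≠ 0) ∧
      (∀ i j, i ≠ j → ∀ a b : ℂ, (∀ t, a * l i t = b * l j t) → a = 0 ∧ b = 0) ∧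
      f = s ^ 2 * ∏ i, (C (l i 0) + C (l i 1) * X 0 + C (l i 2) * X 1) := by
  obtain ⟨s, l, hs, hl1, hl2, hl3, hl4⟩ := norm_list f hf0 hlin
  -- a list of even length
  obtain ⟨l', hne, hpw, hlen, heven, hprod⟩ : ∃ l' : List (Fin 3 → ℂ), (∀ v ∈ l', v ≠ 0) ∧
      l'.Pairwise NonProp ∧ l'.length ≤ 6 ∧ Even l'.length ∧
      (l'.map lpoly).prod = (l.map lpoly).prod := by
    have hl0 : ∀ v ∈ l, v ≠ 0 := by
      intro v hv h0
      have := hl1 v hv
      rw [h0] at this
      simp at this
    rcases Nat.even_or_odd l.length with he | ho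
    · exact ⟨l, hl0, hl2, by omega, he, rfl⟩
    · refine ⟨![1, 0, 0] :: l, ?_, ?_, ?_, ?_, ?_⟩
      · intro v hv
        rcases List.mem_cons.1 hv with rfl | hv
        · intro h0
          have := congrFun h0 0
          simp at this
        · exact hl0 v hv
      · exact List.Pairwise.cons (fun v hv => nonProp_infty (hl1 v hv)) hl2
      · rw [List.length_cons]
        obtain ⟨k, hk⟩ := ho
        omega
      · rw [List.length_cons]
        exact Odd.add_one ho
      · rw [List.map_cons, List.prod_cons]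
        have : lpoly ![1, 0, 0] = 1 := by
          unfold lpoly
          simp
        rw [this, one_mul]
  refine ⟨l'.length, s, fun i => l'.get i, heven, hlen, hs, fun i => hne _ (List.get_mem _ _),
    ?_, ?_⟩
  · intro i j hij
    have hpw' := List.pairwise_iff_get.1 hpw
    rcases lt_or_gt_of_ne hij with h | h
    · exact hpw' i j h
    · exact (hpw' j i h).symm
  · have h7 : ∏ i : Fin l'.length, (C (l'.get i 0) + C (l'.get i 1) * X 0 + C (l'.get i 2) * X 1) =
        (l'.map lpoly).prod := Fin.prod_univ_fun_getElem l' lpoly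
    rw [h7, hprod]
    exact hl4

theorem aeval_lpoly {K : Type} [Field K] [Algebra ℂ K] (z : Fin 2 → K) (v : Fin 3 → ℂ) :
    aeval z (C (v 0) + C (v 1) * X 0 + C (v 2) * X 1 : MvPolynomial (Fin 2) ℂ) = lin z v := by
  unfold lin
  simp only [map_add, map_mul, aeval_X, algHom_C]

theorem lines_of_factor {K : Type} [Field K] [Algebra ℂ K] {f : MvPolynomial (Fin 2) ℂ}
    (z : Fin 2 → K) (w : K) (hz : AlgebraicIndependent ℂ z) (hw : w ^ 2 = aeval z f)
    (gen : IntermediateField.adjoin ℂ (Set.range z ∪ {w}) = ⊤) {m : ℕ}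
    (s : MvPolynomial (Fin 2) ℂ) (l : Fin m → Fin 3 → ℂ) (hs : s ≠ 0) (hne : ∀ i, l i ≠ 0)
    (hdiff : ∀ i j, i ≠ j → ∀ a b : ℂ, (∀ t, a * l i t = b * l j t) → a = 0 ∧ b = 0)
    (hf : f = s ^ 2 * ∏ i, (C (l i 0) + C (l i 1) * X 0 + C (l i 2) * X 1)) :
    ∃ X : Lines K m, X.l = l ∧ X.z = z ∧ X.w = w / aeval z s := by
  have hs0 : aeval z s ≠ 0 := by
    intro h
    exact hs (hz.eq_zero_of_aeval_eq_zero s h)
  refine ⟨⟨z, w / aeval z s, l, hz, ?_, ?_, hne, hdiff⟩, rfl, rfl, rfl⟩
  · rw [div_pow, hw, hf, map_mul, map_pow, map_prod, mul_div_assoc, mul_comm, div_mul_cancel₀]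
    · exact Finset.prod_congr rfl fun i _ => aeval_lpoly z (l i)
    · exact pow_ne_zero 2 hs0
  · rw [eq_top_iff, ← gen, IntermediateField.adjoin_le_iff]
    set A := IntermediateField.adjoin ℂ (Set.range z ∪ {w / aeval z s}) with hA
    have h1 : ∀ i, z i ∈ A := fun i =>
      IntermediateField.subset_adjoin _ _ (Or.inl ⟨i, rfl⟩)
    have h2 : w / aeval z s ∈ A := IntermediateField.subset_adjoin _ _ (Or.inr rfl)
    have h3 : aeval z s ∈ A := by
      have h4 : aeval z s ∈ Algebra.adjoin ℂ (Set.range z) := by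
        rw [Algebra.adjoin_range_eq_range_aeval]
        exact ⟨s, rfl⟩
      have h5 : Algebra.adjoin ℂ (Set.range z) ≤ A.toSubalgebra := by
        rw [Algebra.adjoin_le_iff]
        rintro _ ⟨i, rfl⟩
        exact h1 i
      exact h5 h4
    intro x hx
    rcases hx with ⟨i, rfl⟩ | hx
    · exact h1 i
    · rw [Set.mem_singleton_iff] at hx
      rw [hx]
      have h6 : w = w / aeval z s * aeval z s := (div_mul_cancel₀ w hs0).symm
      rw [h6]
      exact A.mul_mem h2 h3

/-- `f = c s² ∏ f_i` with `f_i` linear, pairwise not proportional; `w / (√c s)`; if the number of the `f_i`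
is odd, add the line at infinity `(1, 0, 0)`, whose value is `1`. -/
theorem exists_lines {K : Type} [Field K] [Algebra ℂ K] {f : MvPolynomial (Fin 2) ℂ} (hf0 : f ≠ 0)
    (h6 : f.totalDegree ≤ 6)
    (hlin : ∀ g : MvPolynomial (Fin 2) ℂ, Irreducible g → g ∣ f → g.totalDegree ≤ 1)
    (hK : IsDoublePlane K f) : ∃ m : ℕ, Even m ∧ m ≤ 6 ∧ Nonempty (Lines K m) := by
  obtain ⟨z, w, hz, hw, gen⟩ := hK
  obtain ⟨m, s, l, hm, hm6, hs, hne, hdiff, hf⟩ := exists_factor hf0 h6 hlin
  obtain ⟨X, -⟩ := lines_of_factor z w hz hw gen s l hs hne hdiff hf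
  exact ⟨m, hm, hm6, ⟨X⟩⟩

end Pool.Agent.DP
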